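import Mathlib
import Pool.Agent.Results.MP_ea326e_an.SharpGrowth

set_option autoImplicit false

namespace Pool.Agent.Y965.CF

open Metric Set Filter Topology Pool.Agent.Helper540
open Pool.Agent.Results.MP_ea326e_an.SharpGrowth (rootS radius maxNorm rootS_eq rootS_pos crit_rootS
  radius_sq maxNorm_sq maxNorm_nonneg radius_nonneg radius_gt radius_sq_lt radius_mem radius_mono
  radius_surj)

theorem rootS_tendsto : Tendsto rootS (𝓝[<] 1) (𝓝 1) := by
  have h : ContinuousAt rootS 1 := by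
    unfold rootS
    apply ContinuousAt.div
    · fun_prop
    · fun_prop
    · norm_num
  have h1 : rootS 1 = 1 := by
    unfold rootS
    norm_num
  have h2 := h.tendsto
  rw [h1] at h2
  exact h2.mono_left nhdsWithin_le_nhds

theorem id_tendsto : Tendsto (fun p : ℝ => p) (𝓝[<] 1) (𝓝 1) :=
  tendsto_id.mono_left nhdsWithin_le_nhds

theorem ev_mem : ∀ᶠ p : ℝ in 𝓝[<] 1, p ∈ Ioo (0 : ℝ) 1 := Ioo_mem_nhdsLT one_pos

theorem ratio_tendsto : Tendsto (fun p => (1 - rootS p) / (1 - p)) (𝓝[<] 1) (𝓝 1) := by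
  have hS := rootS_tendsto
  have hp := id_tendsto
  have h1 : Tendsto (fun p : ℝ => (2 + 2 * (1 - p) - (1 - p) ^ 2) /
      (2 + (1 - p) - (1 + (1 - p)) * (1 - rootS p) + 3 * (1 - p) ^ 2 - (1 - p) ^ 3)) (𝓝[<] 1)
      (𝓝 ((2 + 2 * (1 - 1) - (1 - 1) ^ 2) /
        (2 + (1 - 1) - (1 + (1 - 1)) * (1 - 1) + 3 * (1 - 1) ^ 2 - (1 - 1) ^ 3))) := by
    apply Tendsto.div
    · exact ((tendsto_const_nhds.add ((tendsto_const_nhds.sub hp).const_mul 2)).sub
        ((tendsto_const_nhds.sub hp).pow 2))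
    · exact (((tendsto_const_nhds.add (tendsto_const_nhds.sub hp)).sub
        ((tendsto_const_nhds.add (tendsto_const_nhds.sub hp)).mul (tendsto_const_nhds.sub hS))).add
        (((tendsto_const_nhds.sub hp).pow 2).const_mul 3)).sub ((tendsto_const_nhds.sub hp).pow 3)
    · norm_num
  have e : (2 + 2 * (1 - 1) - (1 - 1) ^ 2) /
        (2 + (1 - 1) - (1 + (1 - 1)) * (1 - 1) + 3 * (1 - 1) ^ 2 - (1 - 1) ^ 3) = (1 : ℝ) := by
    norm_num
  rw [e] at h1
  refine h1.congr' ?_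
  filter_upwards [ev_mem] with p hp
  have hq : 0 < 1 - p := by linarith [hp.2]
  have heq := rootS_eq hp.2
  have hc := crit_rootS hp.1 hp.2
  have hS1 := hc.hi
  have hS0 := hc.S0
  set S := rootS p with hSd
  have hden : 0 < 2 + (1 - p) - (1 + (1 - p)) * (1 - S) + 3 * (1 - p) ^ 2 - (1 - p) ^ 3 := by
    have h3 : (1 - p) ^ 3 ≤ (1 - p) ^ 2 := by
      have : (1 - p) ^ 3 = (1 - p) ^ 2 * (1 - p) := by ring
      rw [this]
      exact mul_le_of_le_one_right (sq_nonneg _) (by linarith [hp.1])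
    nlinarith [mul_pos hq hS0, sq_nonneg (1 - p)]
  rw [div_eq_div_iff hden.ne' hq.ne']
  linear_combination heq

theorem norm_tendsto : Tendsto (fun p => (1 - p) ^ (3 / 2 : ℝ) * maxNorm p) (𝓝[<] 1) (𝓝 (√2)) := by
  have hS := rootS_tendsto
  have hp := id_tendsto
  have h1 : Tendsto (fun p : ℝ => √(p * ((1 - rootS p) / (1 - p)) * (p + (2 - p) * rootS p)))
      (𝓝[<] 1) (𝓝 (√(1 * 1 * (1 + (2 - 1) * 1)))) :=
    ((hp.mul ratio_tendsto).mul (hp.add ((tendsto_const_nhds.sub hp).mul hS))).sqrt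
  have e : (1 * 1 * (1 + (2 - 1) * 1)) = (2 : ℝ) := by norm_num
  rw [e] at h1
  refine h1.congr' ?_
  filter_upwards [ev_mem] with p hp
  have hq : 0 < 1 - p := by linarith [hp.2]
  have hc := crit_rootS hp.1 hp.2
  have hS1 := hc.hi
  have hS0 := hc.S0
  unfold maxNorm
  set S := rootS p with hSd
  have e1 : p * ((1 - S) / (1 - p)) * (p + (2 - p) * S) =
      p * (1 - S) * (p + (2 - p) * S) / (1 - p) := by ring
  rw [e1, Real.sqrt_div' _ hq.le]
  have e2 : (1 - p) ^ (3 / 2 : ℝ) = (1 - p) ^ 2 / √(1 - p) := by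
    rw [Real.sqrt_eq_rpow, ← Real.rpow_natCast (1 - p) 2, ← Real.rpow_sub hq]
    norm_num
  rw [e2]
  have h3 : √(1 - p) ≠ 0 := (Real.sqrt_pos.2 hq).ne'
  field_simp

theorem radius_tendsto : Tendsto (fun p => (1 - radius p) / (1 - p)) (𝓝[<] 1) (𝓝 (3 / 4)) := by
  have hS := rootS_tendsto
  have hp := id_tendsto
  have hR : Tendsto radius (𝓝[<] 1) (𝓝 1) := by
    have h1 : Tendsto (fun p : ℝ => √(rootS p * (p * (1 + p) + (1 - p) * rootS p) /
        (p + (2 - p) * rootS p))) (𝓝[<] 1) (𝓝 (√(1 * (1 * (1 + 1) + (1 - 1) * 1) /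
        (1 + (2 - 1) * 1)))) := by
      apply Tendsto.sqrt
      apply Tendsto.div
      · exact hS.mul ((hp.mul (tendsto_const_nhds.add hp)).add
          ((tendsto_const_nhds.sub hp).mul hS))
      · exact hp.add ((tendsto_const_nhds.sub hp).mul hS)
      · norm_num
    have e : √(1 * (1 * (1 + 1) + (1 - 1) * 1) / (1 + (2 - 1) * 1)) = (1 : ℝ) := by norm_num
    rw [e] at h1
    exact h1
  have h1 : Tendsto (fun p : ℝ => ((1 + p) + p ^ 2 * ((1 - rootS p) / (1 - p)) -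
      (1 - rootS p) ^ 2) / ((p + (2 - p) * rootS p) * (1 + radius p))) (𝓝[<] 1)
      (𝓝 (((1 + 1) + 1 ^ 2 * 1 - (1 - 1) ^ 2) / ((1 + (2 - 1) * 1) * (1 + 1)))) := by
    apply Tendsto.div
    · exact ((tendsto_const_nhds.add hp).add ((hp.pow 2).mul ratio_tendsto)).sub
        ((tendsto_const_nhds.sub hS).pow 2)
    · exact (hp.add ((tendsto_const_nhds.sub hp).mul hS)).mul (tendsto_const_nhds.add hR)
    · norm_num
  have e : (((1 + 1) + 1 ^ 2 * 1 - (1 - 1) ^ 2) / ((1 + (2 - 1) * 1) * (1 + 1))) = (3 / 4 : ℝ) := by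
    norm_num
  rw [e] at h1
  refine h1.congr' ?_
  filter_upwards [ev_mem] with p hp
  have hq : 0 < 1 - p := by linarith [hp.2]
  have hc := crit_rootS hp.1 hp.2
  have hS1 := hc.hi
  have hS0 := hc.S0
  have hrs := radius_sq hp.1 hp.2
  have hr0 := radius_nonneg p
  set S := rootS p with hSd
  set r := radius p with hrd
  have hQ : 0 < p + (2 - p) * S := by
    have : 0 < 2 - p := by linarith
    have := hp.1
    positivity
  have hden : 0 < (p + (2 - p) * S) * (1 + r) := by positivity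
  rw [div_eq_div_iff hden.ne' hq.ne']
  field_simp
  linear_combination hrs

theorem final_tendsto : Tendsto (fun p => (1 - radius p) ^ (3 / 2 : ℝ) * maxNorm p) (𝓝[<] 1)
    (𝓝 (3 * √6 / 8)) := by
  have h1 : Tendsto (fun p => ((1 - radius p) / (1 - p)) ^ (3 / 2 : ℝ) *
      ((1 - p) ^ (3 / 2 : ℝ) * maxNorm p)) (𝓝[<] 1) (𝓝 ((3 / 4) ^ (3 / 2 : ℝ) * √2)) :=
    (radius_tendsto.rpow_const (Or.inr (by norm_num))).mul norm_tendsto
  have e : (3 / 4 : ℝ) ^ (3 / 2 : ℝ) * √2 = 3 * √6 / 8 := by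
    have h2 : (3 / 4 : ℝ) ^ (3 / 2 : ℝ) = 3 / 4 * √(3 / 4) := by
      rw [Real.sqrt_eq_rpow, show (3 / 2 : ℝ) = 1 + 1 / 2 by norm_num,
        Real.rpow_add (by norm_num), Real.rpow_one]
    rw [h2, Real.sqrt_div (by norm_num), show (4 : ℝ) = 2 ^ 2 by norm_num,
      Real.sqrt_sq (by norm_num), show (6 : ℝ) = 3 * 2 by norm_num,
      Real.sqrt_mul (by norm_num)]
    ring
  rw [e] at h1
  refine h1.congr' ?_
  filter_upwards [ev_mem] with p hp
  have hq : 0 < 1 - p := by linarith [hp.2]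
  have hr : 0 < 1 - radius p := by linarith [(radius_mem hp).2]
  rw [Real.div_rpow hr.le hq.le]
  have : (1 - p) ^ (3 / 2 : ℝ) ≠ 0 := (Real.rpow_pos_of_pos hq _).ne'
  field_simp

/-- the inverse of `radius` tends to `1` -/
theorem inv_tendsto {P : ℝ → ℝ} (hP : ∀ r ∈ Ioo (0 : ℝ) 1, P r ∈ Ioo (0 : ℝ) 1 ∧ radius (P r) = r) :
    Tendsto P (𝓝[<] 1) (𝓝[<] 1) := by
  rw [tendsto_nhdsWithin_iff]
  constructor
  · have h1 : Tendsto (fun r : ℝ => r ^ 2) (𝓝[<] 1) (𝓝 1) := by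
      have := id_tendsto.pow 2
      simpa using this
    refine tendsto_of_tendsto_of_tendsto_of_le_of_le' h1 tendsto_const_nhds ?_ ?_
    · filter_upwards [ev_mem] with r hr
      obtain ⟨h2, h3⟩ := hP r hr
      have := radius_sq_lt h2.1 h2.2
      rw [h3] at this
      exact this.le
    · filter_upwards [ev_mem] with r hr
      exact (hP r hr).1.2.le
  · filter_upwards [ev_mem] with r hr
    exact (hP r hr).1.2

end Pool.Agent.Y965.CF
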