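import Mathlib
import Pool.Agent.Helper540.GrowthLo

set_option autoImplicit false

namespace Pool.Agent.Y965.CF

open Metric Set Filter Topology Pool.Agent.Helper540

variable {E : Type*} [NormedAddCommGroup E] [InnerProductSpace ℂ E]

theorem bessel {e f : E} (he : ‖e‖ = 1) (hf : ‖f‖ = 1) (hef : inner ℂ e f = (0 : ℂ)) (z : E) :
    ‖(inner ℂ e z : ℂ)‖ ^ 2 + ‖(inner ℂ f z : ℂ)‖ ^ 2 ≤ ‖z‖ ^ 2 := by
  have ho : Orthonormal ℂ ![e, f] := by
    rw [orthonormal_iff_ite]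
    have hfe : inner ℂ f e = (0 : ℂ) := by rw [← inner_conj_symm, hef, map_zero]
    intro i j
    fin_cases i <;> fin_cases j <;>
      simp [hef, hfe, inner_self_eq_norm_sq_to_K, he, hf]
  have h := ho.sum_inner_products_le z (s := Finset.univ)
  rw [Fin.sum_univ_two] at h
  simpa using h

/-- The extremal map. -/
noncomputable def exM (e f : E) (a b : ℝ) (z : E) : E :=
  ((1 + b * (inner ℂ e z : ℂ)) / (1 - b * (inner ℂ e z : ℂ))) • z +
    ((inner ℂ e z : ℂ) * (a * (inner ℂ e z : ℂ) / (1 - b * (inner ℂ e z : ℂ)) ^ 2)) • f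

theorem norm_in_le {e : E} (he : ‖e‖ = 1) (z : E) : ‖(inner ℂ e z : ℂ)‖ ≤ ‖z‖ := by
  have := norm_inner_le_norm (𝕜 := ℂ) e z
  rwa [he, one_mul] at this

theorem in_diff (e : E) (z : E) : DifferentiableAt ℂ (fun z : E => (inner ℂ e z : ℂ)) z :=
  (innerSL ℂ e).differentiableAt

theorem dd {f g : E → ℂ} {z : E}
    (hf : DifferentiableAt ℂ f z) (hg : DifferentiableAt ℂ g z) (h : g z ≠ 0) :
    DifferentiableAt ℂ (fun z => f z / g z) z := by
  simp only [div_eq_mul_inv]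
  exact hf.mul (hg.inv h)

theorem exM_diffAt (e f : E) (a : ℝ) {b : ℝ} {z : E}
    (hz : (1 - (b : ℂ) * (inner ℂ e z : ℂ)) ≠ 0) : DifferentiableAt ℂ (exM e f a b) z := by
  have hi := in_diff e z
  have h1 : DifferentiableAt ℂ (fun z : E => 1 - (b : ℂ) * (inner ℂ e z : ℂ)) z :=
    (differentiableAt_const _).sub (hi.const_mul _)
  have h2 : DifferentiableAt ℂ (fun z : E => 1 + (b : ℂ) * (inner ℂ e z : ℂ)) z :=
    (differentiableAt_const _).add (hi.const_mul _)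
  have h3 : DifferentiableAt ℂ
      (fun z : E => (1 + (b : ℂ) * (inner ℂ e z : ℂ)) / (1 - (b : ℂ) * (inner ℂ e z : ℂ))) z :=
    dd h2 h1 hz
  have h4 : DifferentiableAt ℂ
      (fun z : E => (a : ℂ) * (inner ℂ e z : ℂ) / (1 - (b : ℂ) * (inner ℂ e z : ℂ)) ^ 2) z :=
    dd (hi.const_mul _) (h1.pow 2) (pow_ne_zero 2 hz)
  have h5 : DifferentiableAt ℂ
      (fun z : E => (inner ℂ e z : ℂ) *
        ((a : ℂ) * (inner ℂ e z : ℂ) / (1 - (b : ℂ) * (inner ℂ e z : ℂ)) ^ 2)) z :=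
    hi.mul h4
  exact (h3.smul differentiableAt_id).add (h5.smul (differentiableAt_const _))

theorem exM_zero (e f : E) (a b : ℝ) : exM e f a b 0 = 0 := by
  simp [exM]

theorem exM_fderiv (e f : E) (a b : ℝ) :
    fderiv ℂ (exM e f a b) 0 = ContinuousLinearMap.id ℂ E := by
  have hi := in_diff e (0 : E)
  have h0 : (1 - (b : ℂ) * (inner ℂ e (0 : E) : ℂ)) ≠ 0 := by simp
  have h1 : DifferentiableAt ℂ (fun z : E => 1 - (b : ℂ) * (inner ℂ e z : ℂ)) 0 :=
    (differentiableAt_const _).sub (hi.const_mul _)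
  have h2 : DifferentiableAt ℂ (fun z : E => 1 + (b : ℂ) * (inner ℂ e z : ℂ)) 0 :=
    (differentiableAt_const _).add (hi.const_mul _)
  have h30 : DifferentiableAt ℂ
      (fun z : E => (1 + (b : ℂ) * (inner ℂ e z : ℂ)) / (1 - (b : ℂ) * (inner ℂ e z : ℂ))) 0 :=
    dd h2 h1 h0
  have h3 := h30.hasFDerivAt.smul (hasFDerivAt_id (𝕜 := ℂ) (0 : E))
  have h4 : DifferentiableAt ℂ
      (fun z : E => (a : ℂ) * (inner ℂ e z : ℂ) / (1 - b * (inner ℂ e z : ℂ)) ^ 2) 0 :=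
    dd (hi.const_mul _) (h1.pow 2) (pow_ne_zero 2 h0)
  have h5 := (hi.hasFDerivAt.mul h4.hasFDerivAt).smul (hasFDerivAt_const f (0 : E))
  have h6 := h3.add h5
  have h7 : HasFDerivAt (exM e f a b) (ContinuousLinearMap.id ℂ _) 0 := by
    refine HasFDerivAt.congr_fderiv h6 ?_
    ext v
    simp
  exact h7.fderiv

theorem exM_pos {e f : E} (he : ‖e‖ = 1) (hf : ‖f‖ = 1) (hef : inner ℂ e f = (0 : ℂ))
    {p S t g K : ℝ} (c : Crit p S)
    (hK : K = 3 * S - p ^ 2) (ht : 0 < t) (ht2 : t ^ 2 = 2 / K) (hg : 0 < g)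
    (hg2 : g ^ 2 = (S - p ^ 2) * K) {z : E} (hz : z ∈ ball 0 1)
    (hz0 : z ≠ 0) : 0 < (inner ℂ z (exM e f (K * g / (2 * S ^ 2)) (p / (S * t)) z)).re := by
  have hp0 := c.p0
  have hp1 := c.p1
  have hS := c.S0
  have hl := c.lo
  have hK0 : 0 < K := by rw [hK]; exact c.K0
  set a := K * g / (2 * S ^ 2) with ha
  set b := p / (S * t) with hb
  have hb0 : 0 < b := by positivity
  have ha0 : 0 < a := by positivity
  have hb2 : b ^ 2 = p ^ 2 * K / (2 * S ^ 2) := by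
    rw [hb, div_pow, mul_pow, ht2]
    field_simp
  have ha2 : a ^ 2 = K ^ 3 * (S - p ^ 2) / (4 * S ^ 4) := by
    rw [ha, div_pow, mul_pow, hg2]
    field_simp
    ring
  have hb1 : b < 1 := by
    have h1 : b ^ 2 < 1 := by
      rw [hb2, div_lt_one (by positivity), hK]
      have h2 : 0 < (2 * S - p ^ 2) * (S - p ^ 2) := mul_pos (by linarith) (by linarith)
      nlinarith
    nlinarith
  rw [mem_ball_zero_iff] at hz
  have hN0 : 0 < ‖z‖ := norm_pos_iff.2 hz0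
  set ζ : ℂ := inner ℂ e z with hζ
  set ω : ℂ := inner ℂ f z with hω
  have hzi : ‖ζ‖ ≤ ‖z‖ := norm_in_le he z
  have hden := ex_den hb0 hb1 (hzi.trans_lt hz)
  set X := ‖ζ‖ ^ 2 with hX
  set W := ‖ω‖ with hW
  have hXW : X + W ^ 2 ≤ ‖z‖ ^ 2 := bessel he hf hef z
  have hX0 : 0 ≤ X := sq_nonneg _
  have hW0 : 0 ≤ W := norm_nonneg _
  have hN1 : ‖z‖ ^ 2 < 1 := by nlinarith
  have hN2 : 0 < ‖z‖ ^ 2 := by positivity
  set N := ‖z‖ ^ 2 with hN
  -- the key inequality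
  have k1 : N * (N - b ^ 2 * X) ^ 2 - a ^ 2 * X ^ 2 * (N - X) =
      (K * X / (2 * S) - N) ^ 2 * ((S - p ^ 2) * K * X / S ^ 2 + N) := by
    rw [hb2, ha2, hK]
    field_simp
    ring
  have k2 : 0 ≤ (K * X / (2 * S) - N) ^ 2 * ((S - p ^ 2) * K * X / S ^ 2 + N) := by
    apply mul_nonneg (sq_nonneg _)
    have : 0 ≤ (S - p ^ 2) * K * X / S ^ 2 :=
      div_nonneg (mul_nonneg (mul_nonneg (by linarith) hK0.le) hX0) (by positivity)
    linarith
  have k3 : (a * X * W) ^ 2 ≤ (N - b ^ 2 * X) ^ 2 := by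
    have h1 : (a * X * W) ^ 2 ≤ a ^ 2 * X ^ 2 * (N - X) := by
      have : (a * X * W) ^ 2 = a ^ 2 * X ^ 2 * W ^ 2 := by ring
      rw [this]
      exact mul_le_mul_of_nonneg_left (by linarith) (by positivity)
    have h2 : N * (N - b ^ 2 * X) ^ 2 ≤ (N - b ^ 2 * X) ^ 2 :=
      mul_le_of_le_one_left (sq_nonneg _) hN1.le
    linarith
  have k4 : 0 ≤ N - b ^ 2 * X := by
    have : b ^ 2 * X ≤ 1 * X := mul_le_mul_of_nonneg_right (by nlinarith) hX0
    nlinarith [sq_nonneg W]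
  have k5 : a * X * W ≤ N - b ^ 2 * X :=
    (pow_le_pow_iff_left₀ (by positivity) k4 two_ne_zero).1 k3
  have k6 : a * X * W < N * (1 - b ^ 2 * X) := by
    rcases hX0.eq_or_lt with h' | h'
    · rw [← h']
      simpa using hN2
    · have : 0 < b ^ 2 * X * (1 - N) := mul_pos (by positivity) (by linarith)
      nlinarith
  -- the real part
  have hD : 0 < ‖1 - (b : ℂ) * ζ‖ ^ 2 := by
    have := norm_pos_iff.2 hden
    positivity
  have hzf : inner ℂ z f = (starRingEnd ℂ) ω := by rw [hω, inner_conj_symm]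
  have e1 : (inner ℂ z (exM e f a b z)).re =
      ((1 + (b : ℂ) * ζ) / (1 - b * ζ)).re * N +
      Complex.re ((ζ * (a * ζ / (1 - b * ζ) ^ 2)) * (starRingEnd ℂ) ω) := by
    unfold exM
    rw [inner_add_right, inner_smul_right, inner_smul_right, hzf,
      inner_self_eq_norm_sq_to_K, Complex.add_re]
    congr 1
    have : ((‖z‖ : ℂ)) ^ 2 = ((‖z‖ ^ 2 : ℝ) : ℂ) := by push_cast; ring
    rw [show ((RCLike.ofReal ‖z‖ : ℂ)) = (‖z‖ : ℂ) from rfl, this, Complex.re_mul_ofReal]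
  have e2 : ((1 + (b : ℂ) * ζ) / (1 - b * ζ)).re =
      (1 - b ^ 2 * X) / ‖1 - (b : ℂ) * ζ‖ ^ 2 := by
    rw [re_cayley hden, norm_mul, Complex.norm_real, mul_pow, Real.norm_eq_abs, sq_abs]
  have e3 : -(a * X * W / ‖1 - (b : ℂ) * ζ‖ ^ 2) ≤
      Complex.re ((ζ * (a * ζ / (1 - b * ζ) ^ 2)) * (starRingEnd ℂ) ω) := by
    have h1 := (abs_le.1 (Complex.abs_re_le_norm
      ((ζ * (a * ζ / (1 - b * ζ) ^ 2)) * (starRingEnd ℂ) ω))).1
    have h2 : ‖(ζ * (a * ζ / (1 - b * ζ) ^ 2)) * (starRingEnd ℂ) ω‖ =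
        a * X * W / ‖1 - (b : ℂ) * ζ‖ ^ 2 := by
      rw [norm_mul, norm_mul, norm_div, norm_mul, norm_pow, RCLike.norm_conj, Complex.norm_real,
        Real.norm_of_nonneg ha0.le, hX, hW]
      ring
    rw [h2] at h1
    exact h1
  rw [e1, e2]
  have e4 : 0 < (N * (1 - b ^ 2 * X) - a * X * W) / ‖1 - (b : ℂ) * ζ‖ ^ 2 :=
    div_pos (by linarith) hD
  have e5 : (N * (1 - b ^ 2 * X) - a * X * W) / ‖1 - (b : ℂ) * ζ‖ ^ 2 =
      (1 - b ^ 2 * X) / ‖1 - (b : ℂ) * ζ‖ ^ 2 * N - a * X * W / ‖1 - (b : ℂ) * ζ‖ ^ 2 := by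
    ring
  rw [e5] at e4
  linarith

/-- The extremal map attains the bound at every point of the right norm. -/
theorem exM_attains {u v : E} (hu : ‖u‖ = 1) (hv : ‖v‖ = 1) (huv : inner ℂ u v = (0 : ℂ))
    {p S R m r : ℝ} (c : Crit p S) (hr : 0 < r) (hrR : r ^ 2 = R)
    (hR : R * (p + (2 - p) * S) = S * (p * (1 + p) + (1 - p) * S))
    (hm : m * (1 - p) ^ 4 = p * (1 - S) * (p + (2 - p) * S)) :
    ∃ h : E → E,
      DifferentiableOn ℂ h (ball 0 1) ∧ h 0 = 0 ∧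
      fderiv ℂ h 0 = ContinuousLinearMap.id ℂ _ ∧
      (∀ z ∈ ball (0 : E) 1, z ≠ 0 → 0 < (inner ℂ z (h z)).re) ∧
      ‖h ((r : ℂ) • u)‖ ^ 2 = m := by
  have hp0 := c.p0
  have hp1 := c.p1
  have hS := c.S0
  have hl := c.lo
  have hK0 : 0 < 3 * S - p ^ 2 := c.K0
  set K := 3 * S - p ^ 2 with hK
  set t := √(2 / K) with ht
  have ht0 : 0 < t := Real.sqrt_pos.2 (by positivity)
  have ht2 : t ^ 2 = 2 / K := Real.sq_sqrt (by positivity)
  set g := √((S - p ^ 2) * K) with hg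
  have hgp : 0 < (S - p ^ 2) * K := mul_pos (by linarith) hK0
  have hg0 : 0 < g := Real.sqrt_pos.2 hgp
  have hg2 : g ^ 2 = (S - p ^ 2) * K := Real.sq_sqrt hgp.le
  set a := K * g / (2 * S ^ 2) with ha
  set b := p / (S * t) with hb
  have hb0 : 0 < b := by positivity
  have hb2 : b ^ 2 = p ^ 2 * K / (2 * S ^ 2) := by
    rw [hb, div_pow, mul_pow, ht2]
    field_simp
  have hb1 : b < 1 := by
    have h1 : b ^ 2 < 1 := by
      rw [hb2, div_lt_one (by positivity), hK]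
      have h2 : 0 < (2 * S - p ^ 2) * (S - p ^ 2) := mul_pos (by linarith) (by linarith)
      nlinarith
    nlinarith
  have hq : 0 < 1 - p := by linarith
  set x0 := S * t with hx0
  set x1 := (p - S) / (1 - p) * (g / K) with hx1
  -- the radius
  have hxr : x0 ^ 2 + x1 ^ 2 = r ^ 2 := by
    have h1 := c.norm_pt hR
    rw [← hK] at h1
    have h2 : x0 ^ 2 = 2 * S ^ 2 / K := by
      rw [hx0, mul_pow, ht2]; ring
    have h3 : x1 ^ 2 = (p - S) ^ 2 * (S - p ^ 2) / ((1 - p) ^ 2 * K) := by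
      rw [hx1, mul_pow, div_pow, div_pow, hg2]
      field_simp
    rw [hrR, h2, h3]
    field_simp
    linear_combination -h1
  -- the rotated frame
  set α := x0 / r with hα
  set β := x1 / r with hβ
  have hαβ : α ^ 2 + β ^ 2 = 1 := by
    rw [hα, hβ, div_pow, div_pow, ← add_div, hxr]
    exact div_self (by positivity)
  have hvu : inner ℂ v u = (0 : ℂ) := by rw [← inner_conj_symm, huv, map_zero]
  set e0 : E := (α : ℂ) • u - (β : ℂ) • v with he0
  set e1 : E := (β : ℂ) • u + (α : ℂ) • v with he1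
  have huu : inner ℂ u u = (1 : ℂ) := by rw [inner_self_eq_norm_sq_to_K, hu]; norm_num
  have hvv : inner ℂ v v = (1 : ℂ) := by rw [inner_self_eq_norm_sq_to_K, hv]; norm_num
  have hαβc : (α : ℂ) ^ 2 + (β : ℂ) ^ 2 = 1 := by exact_mod_cast hαβ
  have i00 : inner ℂ e0 e0 = (1 : ℂ) := by
    rw [he0]
    simp only [inner_sub_left, inner_sub_right, inner_smul_left, inner_smul_right, huu, hvv, huv,
      hvu, Complex.conj_ofReal]
    linear_combination hαβc
  have i11 : inner ℂ e1 e1 = (1 : ℂ) := by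
    rw [he1]
    simp only [inner_add_left, inner_add_right, inner_smul_left, inner_smul_right, huu, hvv, huv,
      hvu, Complex.conj_ofReal]
    linear_combination hαβc
  have h01 : inner ℂ e0 e1 = (0 : ℂ) := by
    rw [he0, he1]
    simp only [inner_sub_left, inner_add_right, inner_smul_left, inner_smul_right, huu, hvv, huv,
      hvu, Complex.conj_ofReal]
    ring
  have nrm : ∀ w : E, inner ℂ w w = (1 : ℂ) → ‖w‖ = 1 := by
    intro w hw
    rw [inner_self_eq_norm_sq_to_K] at hw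
    have h3 : ((‖w‖ ^ 2 : ℝ) : ℂ) = ((1 : ℝ) : ℂ) := by
      push_cast
      exact hw
    have h2 : ‖w‖ ^ 2 = 1 := Complex.ofReal_injective h3
    exact (pow_eq_one_iff_of_nonneg (norm_nonneg _) two_ne_zero).1 h2
  have hn0 : ‖e0‖ = 1 := nrm e0 i00
  have hn1 : ‖e1‖ = 1 := nrm e1 i11
  have hpt : (x0 : ℂ) • e0 + (x1 : ℂ) • e1 = (r : ℂ) • u := by
    rw [he0, he1]
    have hrc : (r : ℂ) ≠ 0 := by exact_mod_cast hr.ne'
    have k1 : (x0 : ℂ) * α + x1 * β = r := by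
      rw [hα, hβ]
      push_cast
      field_simp
      exact_mod_cast hxr
    have k2 : -((x0 : ℂ) * β) + x1 * α = 0 := by
      rw [hα, hβ]
      push_cast
      ring
    have : (x0 : ℂ) • ((α : ℂ) • u - (β : ℂ) • v) + (x1 : ℂ) • ((β : ℂ) • u + (α : ℂ) • v) =
        ((x0 : ℂ) * α + x1 * β) • u + (-((x0 : ℂ) * β) + x1 * α) • v := by module
    rw [this, k1, k2, zero_smul, add_zero]
  have hnorm : ∀ x y : ℝ, ‖(x : ℂ) • e0 + (y : ℂ) • e1‖ ^ 2 = x ^ 2 + y ^ 2 := by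
    intro x y
    rw [norm_pair hn0 h01, hn1, Complex.norm_real, Complex.norm_real]
    simp
  refine ⟨exM e0 e1 a b, ?_, exM_zero e0 e1 a b, exM_fderiv e0 e1 a b, ?_, ?_⟩
  · intro z hz
    rw [mem_ball_zero_iff] at hz
    exact (exM_diffAt e0 e1 a (ex_den hb0 hb1
      ((norm_in_le hn0 z).trans_lt hz))).differentiableWithinAt
  · intro z hz hz0
    exact exM_pos hn0 hn1 h01 c hK ht0 ht2 hg0 hg2 hz hz0
  · rw [← hpt]
    have hco : inner ℂ e0 ((x0 : ℂ) • e0 + (x1 : ℂ) • e1) = (x0 : ℂ) := by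
      rw [inner_add_right, inner_smul_right, inner_smul_right, i00, h01]
      ring
    have hbx : (b : ℂ) * (x0 : ℂ) = (p : ℂ) := by
      rw [← Complex.ofReal_mul]
      congr 1
      rw [hb, hx0]
      field_simp
    have hax : a * x0 ^ 2 = g := by
      rw [ha, hx0, mul_pow, ht2]
      field_simp
    have hval : exM e0 e1 a b ((x0 : ℂ) • e0 + (x1 : ℂ) • e1) =
        (((1 + p) / (1 - p) * x0 : ℝ) : ℂ) • e0 +
        (((1 + p) / (1 - p) * x1 + g / (1 - p) ^ 2 : ℝ) : ℂ) • e1 := by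
      unfold exM
      rw [hco, hbx]
      have h5 : (x0 : ℂ) * (a * x0 / (1 - p) ^ 2) = ((g / (1 - p) ^ 2 : ℝ) : ℂ) := by
        rw [← hax]
        push_cast
        ring
      rw [h5]
      push_cast
      module
    rw [hval, hnorm]
    have h1 := c.value hm
    rw [← hK] at h1
    have h2 : ((1 + p) / (1 - p) * x0) ^ 2 = 2 * S ^ 2 * (1 + p) ^ 2 / ((1 - p) ^ 2 * K) := by
      rw [hx0, mul_pow, mul_pow, ht2, div_pow]
      field_simp
    have h3 : (1 + p) / (1 - p) * x1 + g / (1 - p) ^ 2 =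
        g * (p + (2 - p) * S) / (K * (1 - p) ^ 2) := by
      have hKe : (1 + p) * (p - S) + K = p + (2 - p) * S := by rw [hK]; ring
      rw [hx1, ← hKe]
      field_simp
    have h4 : ((1 + p) / (1 - p) * x1 + g / (1 - p) ^ 2) ^ 2 =
        (S - p ^ 2) * (p + (2 - p) * S) ^ 2 / (K * (1 - p) ^ 4) := by
      rw [h3, div_pow, mul_pow, mul_pow, hg2]
      field_simp
    rw [h2, h4]
    field_simp
    linear_combination -h1

end Pool.Agent.Y965.CF
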